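import Pool.Agent.Helper38.EC.Goals

/-!
# Packet VPC: the limit of the vertical primitive at 0
-/

set_option autoImplicit false

open MeasureTheory Filter Topology Set Complex EC237.PI

namespace Pool.Agent.Helper5.EC.I_VPC

theorem mem_Qd {x η : ℝ} (hx : 0 ≤ x) (hη : 0 < η) : (x : ℂ) - I * η ∈ Qd := by
  refine ⟨by simpa using hx, by simpa using hη.le, fun h => ?_⟩
  have := congrArg Complex.im h
  simp at this
  linarith

theorem normSq_eq (x η : ℝ) : ‖(x : ℂ) - I * η‖ ^ 2 = x ^ 2 + η ^ 2 := by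
  rw [← Complex.normSq_eq_norm_sq, Complex.normSq_apply]
  simp
  ring

theorem bound {f : ℂ → ℂ} {C0 C1 : ℝ} (h0 : ∀ z ∈ Qd, ‖z‖ ≤ 1 → ‖f z‖ ≤ C0)
    (h1 : ∀ z ∈ Qd, z.re ≤ 1 → 1 ≤ ‖z‖ → ‖f z‖ ≤ C1 / ‖z‖ ^ 2) {x η : ℝ} (hx : 0 ≤ x)
    (hx1 : x ≤ 1) (hη : 0 < η) :
    ‖f ((x : ℂ) - I * η)‖ ≤ 2 * (|C0| + |C1|) * (1 + η ^ 2)⁻¹ := by
  have hz := mem_Qd hx hη
  have hn := normSq_eq x η
  have hre : ((x : ℂ) - I * η).re ≤ 1 := by simpa using hx1
  have hpos : 0 < 1 + η ^ 2 := by positivity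
  have hK0 := abs_nonneg C0
  have hK1 := abs_nonneg C1
  rw [← div_eq_mul_inv, le_div_iff₀ hpos]
  rcases le_total ‖(x : ℂ) - I * η‖ 1 with h | h
  · have h2 := (h0 _ hz h).trans (le_abs_self C0)
    have h3 : η ^ 2 ≤ 1 := by
      have : ‖(x : ℂ) - I * η‖ ^ 2 ≤ 1 := by
        have := norm_nonneg ((x : ℂ) - I * η)
        nlinarith
      nlinarith [sq_nonneg x]
    calc ‖f ((x : ℂ) - I * η)‖ * (1 + η ^ 2) ≤ |C0| * 2 := by
          refine mul_le_mul h2 (by linarith) hpos.le hK0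
      _ ≤ 2 * (|C0| + |C1|) := by linarith
  · have h2 := h1 _ hz hre h
    have hsq : 1 ≤ ‖(x : ℂ) - I * η‖ ^ 2 := by nlinarith
    have h3 : ‖f ((x : ℂ) - I * η)‖ ≤ |C1| / ‖(x : ℂ) - I * η‖ ^ 2 :=
      h2.trans (by gcongr; exact le_abs_self C1)
    have h4 : 1 + η ^ 2 ≤ 2 * ‖(x : ℂ) - I * η‖ ^ 2 := by
      nlinarith [sq_nonneg x]
    calc ‖f ((x : ℂ) - I * η)‖ * (1 + η ^ 2)
        ≤ |C1| / ‖(x : ℂ) - I * η‖ ^ 2 * (2 * ‖(x : ℂ) - I * η‖ ^ 2) := by
          refine mul_le_mul h3 h4 hpos.le (by positivity)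
      _ = 2 * |C1| := by
          have : ‖(x : ℂ) - I * η‖ ^ 2 ≠ 0 := by linarith
          field_simp
      _ ≤ 2 * (|C0| + |C1|) := by linarith

theorem contOn {f : ℂ → ℂ} (hf : ContinuousOn f Qd) {x : ℝ} (hx : 0 ≤ x) :
    ContinuousOn (fun η : ℝ => f ((x : ℂ) - I * η)) (Ioi 0) := by
  refine hf.comp (by fun_prop) fun η hη => mem_Qd hx hη

theorem integrable_bound (K : ℝ) :
    Integrable (fun η : ℝ => K * (1 + η ^ 2)⁻¹) (volume.restrict (Ioi 0)) :=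
  (integrable_inv_one_add_sq.const_mul K).integrableOn

theorem thm (_h : G_VPA) : EC237.PI.G_VPC := by
  rintro f ⟨hc, -, hb⟩ ⟨C0, h0⟩
  obtain ⟨C1, h1⟩ := hb 1
  have hx0 : ∀ η : ℝ, f (-(I * η)) = f (((0 : ℝ) : ℂ) - I * η) := by
    intro η
    simp
  refine ⟨?_, ?_⟩
  · refine (integrable_bound (2 * (|C0| + |C1|))).mono' ?_ ?_
    · simp only [hx0]
      exact (contOn hc le_rfl).aestronglyMeasurable measurableSet_Ioi
    · filter_upwards [ae_restrict_mem measurableSet_Ioi] with η hη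
      rw [hx0]
      exact bound h0 h1 le_rfl zero_le_one hη
  · refine Tendsto.const_mul I ?_
    refine tendsto_integral_filter_of_dominated_convergence
      (fun η : ℝ => 2 * (|C0| + |C1|) * (1 + η ^ 2)⁻¹) ?_ ?_ (integrable_bound _) ?_
    · filter_upwards [self_mem_nhdsWithin] with x hx
      exact (contOn hc (le_of_lt hx)).aestronglyMeasurable measurableSet_Ioi
    · filter_upwards [Ioc_mem_nhdsGT (zero_lt_one (α := ℝ))] with x hx
      filter_upwards [ae_restrict_mem measurableSet_Ioi] with η hη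
      exact bound h0 h1 hx.1.le hx.2 hη
    · filter_upwards [ae_restrict_mem measurableSet_Ioi] with η hη
      have h2 : ((0 : ℝ) : ℂ) - I * η ∈ Qd := mem_Qd le_rfl hη
      rw [hx0]
      refine (hc _ h2).tendsto.comp (tendsto_nhdsWithin_iff.2 ⟨?_, ?_⟩)
      · have h3 : Continuous fun x : ℝ => (x : ℂ) - I * η := by fun_prop
        exact (h3.tendsto 0).mono_left nhdsWithin_le_nhds
      · filter_upwards [self_mem_nhdsWithin] with x hx
        exact mem_Qd (le_of_lt hx) hη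

end Pool.Agent.Helper5.EC.I_VPC
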