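import Pool.Agent.Helper38.EC.Goals

/-!
# Packet WR: the differential equation of `Kc` and the Wronskian
-/

set_option autoImplicit false

open MeasureTheory Filter Topology Set Complex EC237.PI

namespace Pool.Agent.Helper5.EC.I_WR

theorem half_mem {z : ℂ} (hz : z ∈ slitPlane) : z / 2 ∈ slitPlane := by
  rw [Complex.mem_slitPlane_iff] at hz ⊢
  have h1 : (z / 2).re = z.re / 2 := by
    rw [show (z / 2 : ℂ) = z / ((2 : ℝ) : ℂ) by norm_num, Complex.div_ofReal_re]
  have h2 : (z / 2).im = z.im / 2 := by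
    rw [show (z / 2 : ℂ) = z / ((2 : ℝ) : ℂ) by norm_num, Complex.div_ofReal_im]
  rw [h1, h2]
  rcases hz with h | h
  · exact Or.inl (by linarith)
  · exact Or.inr (by
      intro h'
      exact h (by linarith))

theorem hasDerivAt_ell {z : ℂ} (hz : z ∈ slitPlane) : HasDerivAt ell (-z⁻¹) z := by
  have hz0 : z ≠ 0 := slitPlane_ne_zero hz
  have h1 : HasDerivAt (fun w : ℂ => w / 2) (1 / 2) z := (hasDerivAt_id z).div_const 2
  have h2 := (h1.clog (half_mem hz)).neg.sub_const (Real.eulerMascheroniConstant : ℂ)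
  have h3 : -((1 : ℂ) / 2 / (z / 2)) = -z⁻¹ := by
    field_simp
  rw [h3] at h2
  exact h2

theorem hasDerivAt_Kc (hA : G_SERA) {z : ℂ} (hz : z ∈ slitPlane) :
    HasDerivAt Kc (-z⁻¹ * Ic z + ell z * deriv Ic z + deriv Sc z) z :=
  ((hasDerivAt_ell hz).mul (hA.1 z).hasDerivAt).add (hA.2.1 z).hasDerivAt

theorem mul_deriv_Kc (hA : G_SERA) {z : ℂ} (hz : z ∈ slitPlane) :
    z * deriv Kc z = -Ic z + ell z * (z * deriv Ic z) + z * deriv Sc z := by
  have hz0 : z ≠ 0 := slitPlane_ne_zero hz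
  rw [(hasDerivAt_Kc hA hz).deriv]
  field_simp

theorem hasDerivAt_mul_deriv_Kc (hA : G_SERA) {z : ℂ} (hz : z ∈ slitPlane) :
    HasDerivAt (fun w => w * deriv Kc w) (z * Kc z) z := by
  have hz0 : z ≠ 0 := slitPlane_ne_zero hz
  have h1 : HasDerivAt (fun w => -Ic w + ell w * (w * deriv Ic w) + w * deriv Sc w)
      (-deriv Ic z + (-z⁻¹ * (z * deriv Ic z) + ell z * (z * Ic z)) +
        (z * Sc z + 2 * deriv Ic z)) z :=
    ((hA.1 z).hasDerivAt.neg.add ((hasDerivAt_ell hz).mul (hA.2.2.1 z))).add (hA.2.2.2 z)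
  have h2 : (fun w => w * deriv Kc w) =ᶠ[𝓝 z]
      fun w => -Ic w + ell w * (w * deriv Ic w) + w * deriv Sc w := by
    filter_upwards [isOpen_slitPlane.mem_nhds hz] with w hw
    exact mul_deriv_Kc hA hw
  have h3 : z * Kc z = -deriv Ic z + (-z⁻¹ * (z * deriv Ic z) + ell z * (z * Ic z)) +
      (z * Sc z + 2 * deriv Ic z) := by
    have h4 : z⁻¹ * (z * deriv Ic z) = deriv Ic z := by
      rw [← mul_assoc, inv_mul_cancel₀ hz0, one_mul]
    have h5 : -z⁻¹ * (z * deriv Ic z) = -deriv Ic z := by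
      rw [neg_mul, h4]
    rw [h5]
    unfold Kc
    ring
  rw [h3]
  exact h1.congr_of_eventuallyEq h2

/-- The entire function which is equal to the Wronskian on the slit plane. -/
theorem wronskian (hA : G_SERA) (hB : G_SERB) (z : ℂ) :
    -(Ic z * Ic z) + Ic z * (z * deriv Sc z) - Sc z * (z * deriv Ic z) = -1 := by
  have h1 : ∀ w : ℂ, HasDerivAt (fun w => -(Ic w * Ic w) + Ic w * (w * deriv Sc w) -
      Sc w * (w * deriv Ic w)) 0 w := by
    intro w
    have hI := (hA.1 w).hasDerivAt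
    have hS := (hA.2.1 w).hasDerivAt
    have h2 := ((hI.mul hI).neg.add (hI.mul (hA.2.2.2 w))).sub (hS.mul (hA.2.2.1 w))
    have h3 : -(deriv Ic w * Ic w + Ic w * deriv Ic w) +
        (deriv Ic w * (w * deriv Sc w) + Ic w * (w * Sc w + 2 * deriv Ic w)) -
        (deriv Sc w * (w * deriv Ic w) + Sc w * (w * Ic w)) = 0 := by ring
    rw [h3] at h2
    exact h2
  have h4 := is_const_of_deriv_eq_zero (fun w => (h1 w).differentiableAt)
    (fun w => (h1 w).deriv) z 0
  have h5 : Ic 0 = 1 := by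
    have := (hB.1 0 (by simp)).1
    rw [norm_zero] at this
    have h6 : ‖Ic 0 - 1‖ = 0 := le_antisymm (by simpa using this) (norm_nonneg _)
    exact sub_eq_zero.1 (norm_eq_zero.1 h6)
  rw [show -(Ic z * Ic z) + Ic z * (z * deriv Sc z) - Sc z * (z * deriv Ic z) =
    -(Ic 0 * Ic 0) + Ic 0 * (0 * deriv Sc 0) - Sc 0 * (0 * deriv Ic 0) from h4, h5]
  ring

theorem thm (hA : G_SERA) (hB : G_SERB) : EC237.PI.G_WR := by
  refine ⟨fun z hz => ⟨(hasDerivAt_Kc hA hz).differentiableAt, hasDerivAt_mul_deriv_Kc hA hz⟩,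
    fun z hz => ?_⟩
  have hz0 : z ≠ 0 := slitPlane_ne_zero hz
  have h1 := wronskian hA hB z
  have h2 : z * (Ic z * deriv Kc z - Kc z * deriv Ic z) = -1 := by
    rw [← h1]
    have h3 : z * (Ic z * deriv Kc z - Kc z * deriv Ic z) =
        Ic z * (z * deriv Kc z) - Kc z * (z * deriv Ic z) := by ring
    rw [h3, mul_deriv_Kc hA hz]
    unfold Kc
    ring
  have h4 : Ic z * deriv Kc z - Kc z * deriv Ic z =
      z⁻¹ * (z * (Ic z * deriv Kc z - Kc z * deriv Ic z)) := by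
    rw [← mul_assoc, inv_mul_cancel₀ hz0, one_mul]
  rw [h4, h2]
  ring

end Pool.Agent.Helper5.EC.I_WR
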