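import Pool.Agent.Helper38.EC.GoalsE1

/-!
# Packet FUB
-/

set_option autoImplicit false

open MeasureTheory Filter Topology Set

namespace Pool.Agent.Helper5.EC.E_FUB

open EC237

abbrev S : Type := ℤ × ℤ

theorem inner (a : ℂ) (u v : S → ℂ) (h : Summable fun q : S × S => a * (u q.1 * v q.2)) :
    ∑' q : S × S, a * (u q.1 * v q.2) = a * ((∑' k, u k) * ∑' k, v k) := by
  rw [h.tsum_prod]
  have h1 : ∀ k : S, ∑' l : S, a * (u k * v l) = a * (u k * ∑' l, v l) := by
    intro k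
    rw [tsum_mul_left, tsum_mul_left]
  simp_rw [h1]
  rw [tsum_mul_left, tsum_mul_right]

theorem key (c : S → ℂ) (u v : S → S → ℂ)
    (h : Summable fun q : S × S × S => c q.1 * (u q.1 q.2.1 * v q.1 q.2.2)) :
    Summable (fun s => c s * ((∑' k, u s k) * ∑' k, v s k)) ∧
    ∑' q : S × S × S, c q.1 * (u q.1 q.2.1 * v q.1 q.2.2) =
      ∑' s, c s * ((∑' k, u s k) * ∑' k, v s k) := by
  have h1 : ∀ s : S, ∑' q : S × S, c s * (u s q.1 * v s q.2) =
      c s * ((∑' k, u s k) * ∑' k, v s k) := fun s => inner (c s) (u s) (v s) (h.prod_factor s)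
  constructor
  · have h2 := h.prod
    simp only [h1] at h2
    exact h2
  · rw [h.tsum_prod]
    simp only [h1]

/-- `(κ1, κ2, κ3) ↦ (κ1 + κ2, κ1, κ3)` -/
def e1 : Tri ≃ Tri where
  toFun p := (p.1 + p.2.1, p.1, p.2.2)
  invFun q := (q.2.1, q.1 - q.2.1, q.2.2)
  left_inv p := by simp
  right_inv q := by simp

/-- `(κ1, κ2, κ3) ↦ (κ2 + κ3, κ2, κ1)` -/
def e2 : Tri ≃ Tri where
  toFun p := (p.2.1 + p.2.2, p.2.1, p.1)
  invFun q := (q.2.2, q.2.1, q.1 - q.2.1)
  left_inv p := by simp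
  right_inv q := by simp

theorem thm : EC237.DX.G_FUB := by
  intro c u v
  obtain ⟨f, hf⟩ : ∃ f : Tri → ℂ, f = fun q => c q.1 * (u q.1 q.2.1 * v q.1 q.2.2) := ⟨_, rfl⟩
  constructor
  · intro h
    have h1 : Summable f := by
      refine e1.summable_iff.1 ?_
      rw [hf]
      exact h
    have h2 : ∑' p : Tri, c (p.1 + p.2.1) * (u (p.1 + p.2.1) p.1 * v (p.1 + p.2.1) p.2.2) =
        ∑' q, f q := by
      rw [← e1.tsum_eq f, hf]
      rfl
    rw [h2]
    rw [hf] at h1 ⊢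
    exact key c u v h1
  · intro h
    have h1 : Summable f := by
      refine e2.summable_iff.1 ?_
      rw [hf]
      exact h
    have h2 : ∑' p : Tri, c (p.2.1 + p.2.2) * (u (p.2.1 + p.2.2) p.2.1 *
        v (p.2.1 + p.2.2) p.1) = ∑' q, f q := by
      rw [← e2.tsum_eq f, hf]
      rfl
    rw [h2]
    rw [hf] at h1 ⊢
    exact key c u v h1

end Pool.Agent.Helper5.EC.E_FUB
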