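import Pool.Agent.Helper23.EC.DGoalsA

/-!
# Packet B6: summability of the correction
-/

set_option autoImplicit false

open MeasureTheory Filter Topology Set

namespace Pool.Agent.Helper5.EC.D_B6

open EC237

theorem rk_ge_one {k : ℤ × ℤ} (hk : k ≠ 0) : 1 ≤ rk k := by
  unfold rk
  refine Real.one_le_sqrt.2 ?_
  have h : (1 : ℤ) ≤ k.1 ^ 2 + k.2 ^ 2 := by
    by_contra h
    have h1 : k.1 ^ 2 = 0 := by nlinarith [sq_nonneg k.1, sq_nonneg k.2]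
    have h2 : k.2 ^ 2 = 0 := by nlinarith [sq_nonneg k.1, sq_nonneg k.2]
    apply hk
    ext
    · simpa using h1
    · simpa using h2
  exact_mod_cast h

/-- the majorant -/
noncomputable def mj (k : ℤ × ℤ) : ℝ := if k = 0 then 0 else (rk k)⁻¹ ^ 3

theorem mj_nonneg (k : ℤ × ℤ) : 0 ≤ mj k := by
  unfold mj
  split_ifs with h
  · exact le_rfl
  · have := rk_ge_one h
    positivity

theorem norm_le_rk (k : ℤ × ℤ) : ‖(finTwoArrowEquiv ℤ).symm k‖ ≤ rk k := by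
  have h0 : 0 ≤ rk k := Real.sqrt_nonneg _
  rw [pi_norm_le_iff_of_nonneg h0]
  intro i
  fin_cases i
  · simp only [finTwoArrowEquiv_symm_apply, Fin.zero_eta, Matrix.cons_val_zero]
    rw [Int.norm_eq_abs]
    unfold rk
    rw [← Real.sqrt_sq_eq_abs]
    exact Real.sqrt_le_sqrt (by nlinarith [sq_nonneg (k.2 : ℝ)])
  · simp only [finTwoArrowEquiv_symm_apply, Fin.mk_one, Matrix.cons_val_one,
      Matrix.cons_val_fin_one]
    rw [Int.norm_eq_abs]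
    unfold rk
    rw [← Real.sqrt_sq_eq_abs]
    exact Real.sqrt_le_sqrt (by nlinarith [sq_nonneg (k.1 : ℝ)])

theorem summable_mj : Summable mj := by
  have h1 : Summable fun k : ℤ × ℤ => ‖(finTwoArrowEquiv ℤ).symm k‖ ^ (-3 : ℝ) := by
    have h := EisensteinSeries.summable_one_div_norm_rpow (k := 3) (by norm_num)
    exact (finTwoArrowEquiv ℤ).symm.summable_iff.2 h
  refine Summable.of_nonneg_of_le mj_nonneg (fun k => ?_) h1
  unfold mj
  split_ifs with h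
  · positivity
  · have h2 : 0 < ‖(finTwoArrowEquiv ℤ).symm k‖ := by
      rw [norm_pos_iff]
      intro h3
      apply h
      rw [Equiv.symm_apply_eq] at h3
      rw [h3]
      rfl
    have h3 : ‖(finTwoArrowEquiv ℤ).symm k‖ ^ (-3 : ℝ) =
        (‖(finTwoArrowEquiv ℤ).symm k‖)⁻¹ ^ 3 := by
      rw [Real.rpow_neg (norm_nonneg _)]
      rw [show (3 : ℝ) = ((3 : ℕ) : ℝ) by norm_num, Real.rpow_natCast, inv_pow]
    rw [h3]
    exact pow_le_pow_left₀ (inv_nonneg.2 (Real.sqrt_nonneg _)) (inv_anti₀ h2 (norm_le_rk k)) 3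

/-- the first three coefficients are bounded -/
def B2c (P : PowerSeries ℂ) (M : ℝ) : Prop := ∀ p ≤ 2, ‖PowerSeries.coeff p P‖ ≤ M

theorem B2c.nonneg {P : PowerSeries ℂ} {M : ℝ} (h : B2c P M) : 0 ≤ M :=
  (norm_nonneg _).trans (h 0 (by norm_num))

theorem B2c.add {P Q : PowerSeries ℂ} {M N : ℝ} (hP : B2c P M) (hQ : B2c Q N) :
    B2c (P + Q) (M + N) := fun p hp => by
  rw [map_add]
  exact (norm_add_le _ _).trans (add_le_add (hP p hp) (hQ p hp))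

theorem B2c.sub {P Q : PowerSeries ℂ} {M N : ℝ} (hP : B2c P M) (hQ : B2c Q N) :
    B2c (P - Q) (M + N) := fun p hp => by
  rw [map_sub]
  exact (norm_sub_le _ _).trans (add_le_add (hP p hp) (hQ p hp))

theorem B2c.mul {P Q : PowerSeries ℂ} {M N : ℝ} (hP : B2c P M) (hQ : B2c Q N) :
    B2c (P * Q) (3 * (M * N)) := fun p hp => by
  rw [PowerSeries.coeff_mul]
  have h1 : ∀ x ∈ Finset.HasAntidiagonal.antidiagonal p,
      ‖PowerSeries.coeff x.1 P * PowerSeries.coeff x.2 Q‖ ≤ M * N := by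
    intro x hx
    have hx' := Finset.HasAntidiagonal.mem_antidiagonal.1 hx
    rw [norm_mul]
    exact mul_le_mul (hP _ (by omega)) (hQ _ (by omega)) (norm_nonneg _) hP.nonneg
  refine (norm_sum_le_of_le _ h1).trans ?_
  rw [Finset.sum_const, Finset.Nat.card_antidiagonal, nsmul_eq_mul]
  have h2 : ((p + 1 : ℕ) : ℝ) ≤ 3 := by exact_mod_cast Nat.succ_le_succ hp
  exact mul_le_mul_of_nonneg_right h2 (mul_nonneg hP.nonneg hQ.nonneg)

theorem B2c.gser {a α : ℂ} {D M : ℝ} (hD : 1 ≤ D) (h1 : ‖a‖ ≤ D) (h2 : ‖a‖ ≤ M)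
    (hα : ‖α‖ ≤ 1) : B2c (gser a α) (D ^ 2 * M) := fun p hp => by
  unfold EC237.gser
  rw [PowerSeries.coeff_mk, norm_mul, norm_pow, norm_pow, pow_succ]
  have h3 : ‖α‖ ^ p ≤ 1 := pow_le_one₀ (norm_nonneg _) hα
  have h4 : ‖a‖ ^ p ≤ D ^ 2 :=
    (pow_le_pow_left₀ (norm_nonneg _) h1 p).trans (pow_le_pow_right₀ hD hp)
  calc ‖α‖ ^ p * (‖a‖ ^ p * ‖a‖) ≤ 1 * (D ^ 2 * M) := by
        refine mul_le_mul h3 ?_ (by positivity) (by norm_num)
        exact mul_le_mul h4 h2 (norm_nonneg _) (by positivity)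
    _ = D ^ 2 * M := one_mul _

set_option linter.unusedVariables false in
theorem thm (hA1 : EC237.A1) (hB1 : EC237.B1) : EC237.B6 := by
  intro y hy
  obtain ⟨c, C, hc, hC, hB⟩ := hB1 y hy
  obtain ⟨-, -, hK⟩ := hB (y : ℂ) (Metric.mem_ball_self (by positivity))
  obtain ⟨D, hD⟩ : ∃ D : ℝ, D = max 1 c⁻¹ := ⟨_, rfl⟩
  have hD1 : 1 ≤ D := hD ▸ le_max_left _ _
  have hD2 : c⁻¹ ≤ D := hD ▸ le_max_right _ _
  have hinv : ∀ {k : ℤ × ℤ}, k ≠ 0 → ∀ z : ℂ, c * rk k ≤ ‖z‖ →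
      ‖z⁻¹‖ ≤ D ∧ ‖z⁻¹‖ ≤ c⁻¹ * (rk k)⁻¹ := by
    intro k hk z hz
    have h1 := rk_ge_one hk
    have h2 : 0 < c * rk k := by positivity
    have h3 : ‖z⁻¹‖ ≤ c⁻¹ * (rk k)⁻¹ := by
      rw [norm_inv, ← mul_inv]
      exact inv_anti₀ h2 hz
    refine ⟨h3.trans ?_, h3⟩
    refine le_trans ?_ hD2
    have h4 : (rk k)⁻¹ ≤ 1 := inv_le_one_of_one_le₀ h1
    have h5 : 0 < c⁻¹ := inv_pos.2 hc
    nlinarith
  have hA : ∀ (k : ℤ × ℤ) (al : ℤ), k ≠ 0 → ‖(al : ℂ)‖ ≤ 1 →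
      B2c (As (y : ℂ) (k, al)) (D ^ 2 * (c⁻¹ * (rk k)⁻¹)) ∧
      B2c (Bs (y : ℂ) (k, al)) (D ^ 2 * (c⁻¹ * (rk k)⁻¹)) := by
    intro k al hk hal
    obtain ⟨h1, -, h2, -⟩ := hK k
    obtain ⟨h3, h4⟩ := hinv hk _ h1
    obtain ⟨h5, h6⟩ := hinv hk _ h2
    exact ⟨B2c.gser hD1 h3 h4 hal, B2c.gser hD1 h5 h6 hal⟩
  have hbound : ∀ k1 k3 : ℤ × ℤ, k1 ≠ 0 → k3 ≠ 0 →
      ‖PowerSeries.coeff 2 (Eo (y:ℂ) (k1, 1) (k3, 0))‖ ≤
        (2 / 3 * y ^ 3 * (1944 * (D ^ 4 * c⁻¹ ^ 2) ^ 3)) * (mj k1 * mj k3) := by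
    intro k1 k3 h1 h3
    obtain ⟨a1, b1⟩ := hA k1 1 h1 (by simp)
    obtain ⟨a3, b3⟩ := hA k3 0 h3 (by simp)
    have hX : B2c (XX (y : ℂ) (k1, 1) (k3, 0)) _ := (a1.mul b3).sub (b1.mul a3)
    have hS : B2c (As (y : ℂ) (k1, 1) * As (y : ℂ) (k3, 0) +
        Bs (y : ℂ) (k1, 1) * Bs (y : ℂ) (k3, 0)) _ := (a1.mul a3).add (b1.mul b3)
    have hT := (hX.mul hX).mul hS
    have h4 := hT 2 le_rfl
    unfold Eo
    rw [PowerSeries.coeff_smul, sq, norm_smul]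
    have h5 : ‖-(2 / 3 * (y : ℂ) ^ 3)‖ = 2 / 3 * y ^ 3 := by
      rw [norm_neg, norm_mul, norm_pow, Complex.norm_real, Real.norm_of_nonneg hy.le]
      norm_num
    rw [h5]
    refine (mul_le_mul_of_nonneg_left h4 (by positivity)).trans (le_of_eq ?_)
    unfold mj
    rw [if_neg h1, if_neg h3]
    ring
  refine Summable.of_norm_bounded
    (g := fun q : (ℤ × ℤ) × (ℤ × ℤ) =>
      (2 / 3 * y ^ 3 * (1944 * (D ^ 4 * c⁻¹ ^ 2) ^ 3)) * (mj q.1 * mj q.2)) ?_ ?_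
  · exact (summable_mj.mul_of_nonneg summable_mj mj_nonneg mj_nonneg).mul_left _
  · intro q
    split_ifs with hq
    · refine hbound q.1 q.2 ?_ ?_
      · intro h
        have := hq.1
        rw [h] at this
        revert this
        decide
      · intro h
        have := hq.2
        rw [h] at this
        revert this
        decide
    · rw [norm_zero]
      have := mj_nonneg q.1
      have := mj_nonneg q.2
      have : 0 < c⁻¹ := inv_pos.2 hc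
      have : 0 < D := by linarith
      positivity

end Pool.Agent.Helper5.EC.D_B6
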