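import Pool.Agent.Helper23.EC.EGoals

/-!
# Packet EB2: exponentially small sums
-/

set_option autoImplicit false

open MeasureTheory Filter Topology Set

namespace Pool.Agent.Helper5.EC.E_EB2

open EC237

/-- the comparison nome -/
noncomputable def q0 : ℝ := Real.exp (-(Real.pi / 3))

theorem q0_lt : q0 < 1 := by
  unfold q0
  rw [Real.exp_lt_one_iff]
  linarith [Real.pi_pos]

theorem q0_pos : 0 < q0 := Real.exp_pos _

theorem summable_S : Summable fun n : ℕ => ((n:ℝ) + 1) ^ 3 * q0 ^ n := by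
  have h := summable_pow_mul_geometric_of_norm_lt_one (R := ℝ) 3 (r := q0)
    (by rw [Real.norm_of_nonneg q0_pos.le]; exact q0_lt)
  have h1 := (summable_nat_add_iff 1).2 h
  have h2 := h1.mul_left (q0⁻¹)
  refine h2.congr fun n => ?_
  push_cast
  have := q0_pos.ne'
  field_simp
  ring

/-- the constant -/
noncomputable def S0 : ℝ := ∑' n : ℕ, ((n:ℝ) + 1) ^ 3 * q0 ^ n

theorem S0_pos : 0 < S0 := by
  refine summable_S.tsum_pos (fun n => ?_) 0 ?_
  · have := q0_pos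
    positivity
  · simp

theorem series_bound {q : ℝ} (hq : 0 ≤ q) (hq0 : q ≤ q0) {k : ℕ} (hk : k ≤ 3) (hk1 : 1 ≤ k) :
    Summable (fun n : ℕ => (n:ℝ) ^ k * q ^ n) ∧ ∑' n : ℕ, (n:ℝ) ^ k * q ^ n ≤ q * S0 := by
  have hq1 : q < 1 := hq0.trans_lt q0_lt
  have h := summable_pow_mul_geometric_of_norm_lt_one (R := ℝ) k (r := q)
    (by rw [Real.norm_of_nonneg hq]; exact hq1)
  refine ⟨h, ?_⟩
  rw [h.tsum_eq_zero_add]
  rw [Nat.cast_zero, zero_pow (by omega), zero_mul, zero_add]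
  have h1 : ∀ n : ℕ, ((n + 1 : ℕ) : ℝ) ^ k * q ^ (n + 1) ≤ q * (((n:ℝ) + 1) ^ 3 * q0 ^ n) := by
    intro n
    have h2 : ((n + 1 : ℕ) : ℝ) ^ k ≤ ((n:ℝ) + 1) ^ 3 := by
      push_cast
      exact pow_le_pow_right₀ (by linarith [n.cast_nonneg (α := ℝ)]) hk
    have h3 : q ^ n ≤ q0 ^ n := pow_le_pow_left₀ hq hq0 n
    calc ((n + 1 : ℕ) : ℝ) ^ k * q ^ (n + 1) = q * (((n + 1 : ℕ) : ℝ) ^ k * q ^ n) := by ring
      _ ≤ q * (((n:ℝ) + 1) ^ 3 * q0 ^ n) := by
          refine mul_le_mul_of_nonneg_left ?_ hq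
          exact mul_le_mul h2 h3 (by positivity) (by positivity)
  rw [S0, ← tsum_mul_left]
  exact Summable.tsum_le_tsum h1 ((summable_nat_add_iff 1).2 h) (summable_S.mul_left q)

theorem lip {k : ℕ} (hk : k ≤ 3) (hk1 : 1 ≤ k) (t : ℂ) (ht : 1 / 6 ≤ t.im) :
    ‖∑' n : ℤ, 1 / (t + n) ^ (k + 1)‖ ≤
      (2 * Real.pi) ^ 4 * S0 * Real.exp (-(2 * Real.pi * t.im)) := by
  have him : 0 < t.im := by linarith
  have h := EisensteinSeries.qExpansion_identity hk1 ⟨t, him⟩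
  simp only at h
  obtain ⟨q, hq⟩ : ∃ q : ℝ, q = Real.exp (-(2 * Real.pi * t.im)) := ⟨_, rfl⟩
  have hq' : ‖Complex.exp (2 * Real.pi * Complex.I * t)‖ = q := by
    rw [Complex.norm_exp, hq]
    congr 1
    simp
  have hqn : 0 ≤ q := by rw [hq]; positivity
  have hq0 : q ≤ q0 := by
    rw [hq, q0, Real.exp_le_exp]
    have := Real.pi_pos
    nlinarith
  obtain ⟨s1, s2⟩ := series_bound hqn hq0 hk hk1
  have hn : ∀ n : ℕ, ‖(n:ℂ) ^ k * Complex.exp (2 * Real.pi * Complex.I * t) ^ n‖ =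
      (n:ℝ) ^ k * q ^ n := by
    intro n
    rw [norm_mul, norm_pow, norm_pow, hq', Complex.norm_natCast]
  have h3 : ‖∑' n : ℕ, (n:ℂ) ^ k * Complex.exp (2 * Real.pi * Complex.I * t) ^ n‖ ≤ q * S0 := by
    refine (norm_tsum_le_tsum_norm ?_).trans ?_
    · simp_rw [hn]
      exact s1
    · simp_rw [hn]
      exact s2
  have h4 : ‖(-2 * Real.pi * Complex.I) ^ (k + 1) / (k.factorial : ℂ)‖ ≤ (2 * Real.pi) ^ 4 := by
    rw [norm_div, norm_pow, Complex.norm_natCast]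
    have e : ‖(-2 * Real.pi * Complex.I : ℂ)‖ = 2 * Real.pi := by
      rw [norm_mul, norm_mul, Complex.norm_I, Complex.norm_real,
        Real.norm_of_nonneg Real.pi_pos.le]
      norm_num
    rw [e]
    have h5 : (1:ℝ) ≤ (k.factorial : ℝ) := by exact_mod_cast Nat.factorial_pos k
    have h6 : (1:ℝ) ≤ 2 * Real.pi := by linarith [Real.pi_gt_three]
    calc (2 * Real.pi) ^ (k + 1) / (k.factorial : ℝ) ≤ (2 * Real.pi) ^ (k + 1) :=
          div_le_self (by positivity) h5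
      _ ≤ (2 * Real.pi) ^ 4 := pow_le_pow_right₀ h6 (by omega)
  rw [h, norm_mul]
  calc _ ≤ (2 * Real.pi) ^ 4 * (q * S0) := mul_le_mul h4 h3 (norm_nonneg _) (by positivity)
    _ = _ := by
      rw [← hq]
      ring

theorem tsum_class (c : ℤ) (g : ℤ → ℂ) :
    ∑' m : ℤ, (if (m - c) % 6 = 0 then g m else 0) = ∑' l : ℤ, g (6 * l + c) := by
  have hinj : Function.Injective (fun l : ℤ => 6 * l + c) := by
    intro a b h
    have h' : 6 * a + c = 6 * b + c := h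
    omega
  have hs : Function.support (fun m : ℤ => if (m - c) % 6 = 0 then g m else 0) ⊆
      Set.range (fun l : ℤ => 6 * l + c) := by
    intro m hm
    by_cases h1 : (m - c) % 6 = 0
    · exact ⟨(m - c) / 6, by show 6 * ((m - c) / 6) + c = m; omega⟩
    · exact absurd (by simp [h1]) hm
  rw [← hinj.tsum_eq hs]
  refine tsum_congr fun l => ?_
  rw [if_pos (by omega)]

theorem eW_pos {z : ℝ} (hz : 1 ≤ z) (c : ℤ) {n : ℤ} (hn : 0 < n) {j : ℕ} (hj : 2 ≤ j)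
    (hj4 : j ≤ 4) : ‖eW z c n j‖ ≤ (2 * Real.pi) ^ 4 * S0 * ewt z n := by
  obtain ⟨k, rfl⟩ : ∃ k, j = k + 1 := ⟨j - 1, by omega⟩
  obtain ⟨t, ht⟩ : ∃ t : ℂ, t = (c + Complex.I * n * z) / 6 := ⟨_, rfl⟩
  have him : t.im = n * z / 6 := by
    have e : t = ((c / 6 : ℝ) : ℂ) + ((n * z / 6 : ℝ) : ℂ) * Complex.I := by
      rw [ht]
      push_cast
      ring
    rw [e]
    simp
  have hn1 : (1:ℝ) ≤ n := by exact_mod_cast hn
  have hl := lip (k := k) (by omega) (by omega) t (by rw [him]; nlinarith)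
  have e1 : eW z c n (k + 1) = (1 / 6 : ℂ) ^ (k + 1) * ∑' l : ℤ, 1 / (t + l) ^ (k + 1) := by
    unfold eW
    rw [tsum_class, ← tsum_mul_left]
    refine tsum_congr fun l => ?_
    unfold vz
    rw [← one_div_pow, ← mul_pow]
    congr 1
    rw [← one_div, one_div_mul_one_div]
    congr 1
    rw [ht]
    push_cast
    ring
  rw [e1, norm_mul]
  have e2 : ‖(1 / 6 : ℂ) ^ (k + 1)‖ ≤ 1 := by
    rw [norm_pow]
    refine pow_le_one₀ (norm_nonneg _) ?_
    norm_num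
  have e3 : ewt z n = Real.exp (-(2 * Real.pi * t.im)) := by
    unfold ewt
    rw [if_neg hn.ne', him, abs_of_pos (by linarith)]
    congr 1
    ring
  rw [e3]
  calc _ ≤ 1 * ((2 * Real.pi) ^ 4 * S0 * Real.exp (-(2 * Real.pi * t.im))) :=
        mul_le_mul e2 hl (norm_nonneg _) zero_le_one
    _ = _ := one_mul _

theorem eW_neg (z : ℝ) (c n : ℤ) (j : ℕ) : eW z c n j = (-1) ^ j * eW z (-c) (-n) j := by
  unfold eW
  rw [← tsum_mul_left, ← (Equiv.neg ℤ).tsum_eq]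
  refine tsum_congr fun m => ?_
  have e1 : vz z n (-m) = -1 * vz z (-n) m := by
    unfold vz
    rw [neg_one_mul, ← inv_neg]
    congr 1
    push_cast
    ring
  rw [Equiv.neg_apply, e1]
  by_cases h : (m - -c) % 6 = 0
  · rw [if_pos h, if_pos (by omega), mul_pow]
  · rw [if_neg h, if_neg (by omega), mul_zero]

theorem ewt_neg (z : ℝ) (n : ℤ) : ewt z (-n) = ewt z n := by
  unfold ewt
  by_cases h : n = 0
  · simp [h]
  · rw [if_neg h, if_neg (neg_ne_zero.2 h)]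
    push_cast
    rw [abs_neg]

theorem eW_bound {z : ℝ} (hz : 1 ≤ z) (c : ℤ) {n : ℤ} (hn : n ≠ 0) {j : ℕ} (hj : 2 ≤ j)
    (hj4 : j ≤ 4) : ‖eW z c n j‖ ≤ (2 * Real.pi) ^ 4 * S0 * ewt z n := by
  rcases lt_or_gt_of_ne hn with h | h
  · rw [eW_neg, norm_mul, norm_pow, norm_neg, norm_one, one_pow, one_mul, ← ewt_neg]
    exact eW_pos hz (-c) (by omega) hj hj4
  · exact eW_pos hz c h hj hj4

theorem eU_eq (z : ℝ) (c n : ℤ) (j : ℕ) : eU z c n j = eW z c (-n) j := by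
  unfold eU eW
  refine tsum_congr fun m => ?_
  have e1 : uz z n m = vz z (-n) m := by
    unfold uz vz
    congr 1
    push_cast
    ring
  rw [e1]

set_option linter.unusedVariables false in
theorem thm (hEB1 : EC237.EB1) : EC237.EB2 := by
  refine ⟨(2 * Real.pi) ^ 4 * S0, mul_pos (by positivity) S0_pos,
    fun z hz c n hn j hj hj4 => ⟨?_, eW_bound hz c hn hj hj4⟩⟩
  rw [eU_eq, ← ewt_neg]
  exact eW_bound hz c (neg_ne_zero.2 hn) hj hj4

end Pool.Agent.Helper5.EC.E_EB2
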